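import Pool.Agent.MP_919c6d_an.Main

set_option autoImplicit false

open MeasureTheory Filter Topology Pool.Agent.MP_919c6d_an

theorem Pool.Agent.Results.MP_919c6d_an.DecreasingRadii.result :
    ∃ f : (ℕ → UnitAddCircle) → ℂ,
      MemLp f ⊤ torusHaar ∧
      (∀ ν : ℕ →₀ ℤ, (∃ n, ν n < 0) → torusFourierCoeff f ν = 0) ∧
      ∀ᵐ θ ∂torusHaar, ∃ (r : ℕ → ℕ → ℝ) (N : ℕ → ℕ),
        (∀ k n, 0 ≤ r k n ∧ r k n < 1) ∧
        (∀ k n, N k ≤ n → r k n = 0) ∧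
        (∀ n, Monotone (fun k => r k n)) ∧
        (∀ n, Tendsto (fun k => r k n) atTop (𝓝 1)) ∧
        (∀ k n, r k (n + 1) ≤ r k n) ∧
        ‖f θ‖ = 1 ∧
        Tendsto (fun k => poissonIntegral f (N k) (fun n => (r k n : ℂ) * fourier 1 (θ n)))
          atTop (𝓝 0) ∧
        ¬ Tendsto (fun k => poissonIntegral f (N k) (fun n => (r k n : ℂ) * fourier 1 (θ n)))
          atTop (𝓝 (f θ)) :=
  Pool.Agent.MP_919c6d_an.main
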